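import Mathlib
import Pool.Agent.Lib.MP_a785c8_co.Main

/-!
# Periodic two-dimensional Klein sails always have a face which is not a quadrangle

`A` is an integer `3 × 3` matrix whose characteristic polynomial is irreducible over `ℚ` and has
three real roots. The cones are the closures of the connected components of the complement of the
invariant planes of `A`.
-/

set_option autoImplicit false

namespace Pool.Agent.Results.MP_a785c8_co.NoQuadrangularSail

/-- The lattice `ℤ³` in `ℝ³`. -/
def lattice : Set (Fin 3 → ℝ) := {x | ∀ i, ∃ z : ℤ, x i = z}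

/-- `P` is a two-dimensional invariant plane of the matrix `A`, acting on `ℝ³`. -/
def IsInvariantPlane (A : Matrix (Fin 3) (Fin 3) ℤ) (P : Submodule ℝ (Fin 3 → ℝ)) : Prop :=
  Module.finrank ℝ P = 2 ∧ ∀ x ∈ P, (A.map (fun a : ℤ => (a : ℝ))).mulVec x ∈ P

/-- The complement of the union of the invariant planes of `A`. -/
def offPlanes (A : Matrix (Fin 3) (Fin 3) ℤ) : Set (Fin 3 → ℝ) :=
  {x | ∀ P, IsInvariantPlane A P → x ∉ P}

/-- `C` is one of the closed cones into which the invariant planes of `A` divide `ℝ³`: the closure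
of a connected component of the complement of the union of the planes. -/
def IsCone (A : Matrix (Fin 3) (Fin 3) ℤ) (C : Set (Fin 3 → ℝ)) : Prop :=
  ∃ x ∈ offPlanes A, C = closure (connectedComponentIn (offPlanes A) x)

/-- The convex hull of the integer points of `C` different from the origin. -/
def hull (C : Set (Fin 3 → ℝ)) : Set (Fin 3 → ℝ) := convexHull ℝ (lattice ∩ (C \ {0}))

/-- The Klein sail of `C`: the boundary of the convex hull. -/
def sail (C : Set (Fin 3 → ℝ)) : Set (Fin 3 → ℝ) := frontier (hull C)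

/-- `F` is a face of the Klein sail of `C`: a two-dimensional face of the convex hull, that is, the
set of the points of the hull where a linear functional attains its maximum. -/
def IsFace (C F : Set (Fin 3 → ℝ)) : Prop :=
  IsExposed ℝ (hull C) F ∧ F ⊆ sail C ∧ Module.finrank ℝ (vectorSpan ℝ F) = 2

open Pool.Agent.Lib.MP_a785c8_co

section Eigen

variable {A : Matrix (Fin 3) (Fin 3) ℤ}

theorem exists_eigen (hirr : Irreducible (A.charpoly.map (Int.castRingHom ℚ)))
    (hreal : (A.charpoly.map (Int.castRingHom ℝ)).roots.card = 3) :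
    ∃ (v : Fin 3 → (Fin 3 → ℝ)) (μ : Fin 3 → ℝ), Function.Injective μ ∧ LinearIndependent ℝ v ∧
      ∀ i, (A.map (fun a : ℤ => (a : ℝ))).mulVec (v i) = μ i • v i := by
  classical
  set B : Matrix (Fin 3) (Fin 3) ℝ := A.map (fun a : ℤ => (a : ℝ)) with hB
  set p := A.charpoly.map (Int.castRingHom ℝ) with hp
  have hpB : p = B.charpoly := by
    rw [hp, ← Matrix.charpoly_map]
    rfl
  have hsep : p.Separable := by
    have h1 : (A.charpoly.map (Int.castRingHom ℚ)).Separable := hirr.separable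
    have h2 := h1.map (f := algebraMap ℚ ℝ)
    rw [Polynomial.map_map] at h2
    have h3 : (algebraMap ℚ ℝ).comp (Int.castRingHom ℚ) = Int.castRingHom ℝ := by
      ext; simp
    rw [h3] at h2
    exact h2
  have hnd : p.roots.Nodup := Polynomial.nodup_roots hsep
  have hcard : p.roots.toFinset.card = 3 := by
    rw [Multiset.toFinset_card_of_nodup hnd, hreal]
  set e := p.roots.toFinset.equivFinOfCardEq hcard with he
  have hp0 : p ≠ 0 := hsep.ne_zero
  have hev : ∀ t : ℝ, p.eval t = 0 → B.charpoly.eval t = 0 := fun t h => by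
    rw [← hpB]
    exact h
  have hroot : ∀ i, (B.charpoly).eval ((e.symm i : ℝ)) = 0 := by
    intro i
    have h1 := (e.symm i).2
    rw [Multiset.mem_toFinset, Polynomial.mem_roots hp0] at h1
    exact hev _ h1
  have hv : ∀ i, ∃ v : Fin 3 → ℝ, v ≠ 0 ∧ B.mulVec v = (e.symm i : ℝ) • v := by
    intro i
    have h1 := hroot i
    rw [Matrix.eval_charpoly] at h1
    obtain ⟨v, hv0, hv⟩ := Matrix.exists_mulVec_eq_zero_iff.2 h1
    refine ⟨v, hv0, ?_⟩
    rw [Matrix.sub_mulVec, sub_eq_zero] at hv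
    rw [← hv]
    ext j
    simp [Matrix.scalar_apply, Matrix.mulVec_diagonal]
  choose v hv0 hv using hv
  have hinj : Function.Injective (fun i => (e.symm i : ℝ)) :=
    Subtype.val_injective.comp e.symm.injective
  refine ⟨v, fun i => e.symm i, hinj, ?_, hv⟩
  refine Module.End.eigenvectors_linearIndependent' (Matrix.mulVecLin B) _ hinj v fun i => ?_
  rw [Module.End.hasEigenvector_iff, Module.End.mem_eigenspace_iff]
  exact ⟨hv i, hv0 i⟩

end Eigen

section Cones

variable {A : Matrix (Fin 3) (Fin 3) ℤ} {μ : Fin 3 → ℝ}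

theorem coord_mulVec (b : Module.Basis (Fin 3) ℝ (Fin 3 → ℝ))
    (heig : ∀ i, (A.map (fun a : ℤ => (a : ℝ))).mulVec (b i) = μ i • b i) (x : Fin 3 → ℝ)
    (i : Fin 3) : b.repr ((A.map (fun a : ℤ => (a : ℝ))).mulVec x) i = μ i * b.repr x i := by
  have h1 : (A.map (fun a : ℤ => (a : ℝ))).mulVec x =
      ∑ j, (b.repr x j * μ j) • b j := by
    conv_lhs => rw [← b.sum_repr x]
    rw [Matrix.mulVec_sum]
    refine Finset.sum_congr rfl fun j _ => ?_
    rw [Matrix.mulVec_smul, heig j, smul_smul]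
  rw [h1, b.repr_sum_self]
  ring

theorem offPlanes_eq (b : Module.Basis (Fin 3) ℝ (Fin 3 → ℝ)) (hμ : Function.Injective μ)
    (heig : ∀ i, (A.map (fun a : ℤ => (a : ℝ))).mulVec (b i) = μ i • b i) :
    offPlanes A = {x | ∀ i, b.repr x i ≠ 0} := by
  ext x
  constructor
  · intro hx i hi
    refine hx (LinearMap.ker (b.coord i)) ⟨?_, fun y hy => ?_⟩ ?_
    · have h1 := LinearMap.finrank_range_add_finrank_ker (b.coord i)
      have h2 : LinearMap.range (b.coord i) = ⊤ := by
        rw [LinearMap.range_eq_top]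
        intro t
        exact ⟨t • b i, by simp⟩
      rw [h2, finrank_top, Module.finrank_self, Module.finrank_fin_fun] at h1
      omega
    · rw [LinearMap.mem_ker, Module.Basis.coord_apply] at hy ⊢
      rw [coord_mulVec b heig, hy, mul_zero]
    · rw [LinearMap.mem_ker, Module.Basis.coord_apply]
      exact hi
  · intro hx P hP hxP
    have hne : P ≠ ⊤ := by
      rintro rfl
      have h1 := hP.1
      rw [finrank_top, Module.finrank_fin_fun] at h1
      omega
    obtain ⟨φ, hφ0, hφ⟩ := Submodule.exists_le_ker_of_lt_top P (lt_top_iff_ne_top.2 hne)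
    have hz : ∀ y ∈ P, φ y = 0 := fun y hy => hφ hy
    have hpow : ∀ k : ℕ, ∃ y ∈ P, ∀ i, b.repr y i = μ i ^ k * b.repr x i := by
      intro k
      induction k with
      | zero => exact ⟨x, hxP, fun i => by simp⟩
      | succ k ih =>
        obtain ⟨y, hy, hyi⟩ := ih
        refine ⟨_, hP.2 y hy, fun i => ?_⟩
        rw [coord_mulVec b heig, hyi]
        ring
    have hV := Matrix.eq_zero_of_forall_pow_sum_mul_pow_eq_zero (f := μ)
      (v := fun i => φ (b i) * b.repr x i) hμ (fun k => by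
        obtain ⟨y, hy, hyi⟩ := hpow k
        have h1 := hz y hy
        rw [← b.sum_repr y, map_sum] at h1
        rw [← h1]
        refine Finset.sum_congr rfl fun i _ => ?_
        rw [map_smul, smul_eq_mul, hyi]
        ring)
    apply hφ0
    refine b.ext fun i => ?_
    have h1 := congrFun hV i
    simp only [Pi.zero_apply, mul_eq_zero] at h1
    rcases h1 with h1 | h1
    · simpa using h1
    · exact absurd h1 (hx i)

theorem component_eq (b : Module.Basis (Fin 3) ℝ (Fin 3 → ℝ)) {x : Fin 3 → ℝ}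
    (hx : ∀ i, b.repr x i ≠ 0) :
    connectedComponentIn {y | ∀ i, b.repr y i ≠ 0} x =
      {y | ∀ i, 0 < b.repr x i * b.repr y i} := by
  have hcont : ∀ i, Continuous fun y : Fin 3 → ℝ => b.repr x i * b.repr y i := fun i => by
    have h1 : Continuous (b.coord i) := LinearMap.continuous_of_finiteDimensional _
    exact continuous_const.mul h1
  apply Set.Subset.antisymm
  · intro y hy i
    by_contra hcon
    push Not at hcon
    have hpre := isPreconnected_connectedComponentIn (F := {y | ∀ i, b.repr y i ≠ 0}) (x := x)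
    have hxm : x ∈ connectedComponentIn {y | ∀ i, b.repr y i ≠ 0} x := mem_connectedComponentIn hx
    have hiv := hpre.intermediate_value hy hxm (hcont i).continuousOn
    have h0 : (0 : ℝ) ∈ Set.Icc (b.repr x i * b.repr y i) (b.repr x i * b.repr x i) :=
      ⟨hcon, mul_self_nonneg _⟩
    obtain ⟨z, hz, hz0⟩ := hiv h0
    have hzU := connectedComponentIn_subset _ _ hz
    exact mul_ne_zero (hx i) (hzU i) hz0
  · apply IsPreconnected.subset_connectedComponentIn
    · apply Convex.isPreconnected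
      intro y hy z hz s t hs ht hst i
      have h1 := hy i
      have h2 := hz i
      simp only [map_add, map_smul, Finsupp.add_apply, Finsupp.smul_apply, smul_eq_mul]
      have h3 : b.repr x i * (s * b.repr y i + t * b.repr z i) =
          s * (b.repr x i * b.repr y i) + t * (b.repr x i * b.repr z i) := by ring
      rw [h3]
      rcases hs.eq_or_lt with rfl | hs
      · have : t = 1 := by linarith
        rw [this]
        linarith
      · have := mul_pos hs h1
        have := mul_nonneg ht h2.le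
        linarith
    · intro i
      exact mul_self_pos.2 (hx i)
    · intro y hy i h
      have := hy i
      rw [h, mul_zero] at this
      exact lt_irrefl _ this

theorem closure_eq (b : Module.Basis (Fin 3) ℝ (Fin 3 → ℝ)) {x : Fin 3 → ℝ}
    (hx : ∀ i, b.repr x i ≠ 0) :
    closure {y | ∀ i, 0 < b.repr x i * b.repr y i} =
      {y | ∀ i, 0 ≤ b.repr x i * b.repr y i} := by
  have hcont : ∀ i, Continuous fun y : Fin 3 → ℝ => b.repr x i * b.repr y i := fun i => by
    have h1 : Continuous (b.coord i) := LinearMap.continuous_of_finiteDimensional _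
    exact continuous_const.mul h1
  apply Set.Subset.antisymm
  · apply closure_minimal
    · intro y hy i
      exact (hy i).le
    · have : {y : Fin 3 → ℝ | ∀ i, 0 ≤ b.repr x i * b.repr y i} =
          ⋂ i, {y | 0 ≤ b.repr x i * b.repr y i} := by
        ext; simp
      rw [this]
      exact isClosed_iInter fun i => isClosed_le continuous_const (hcont i)
  · intro y hy
    have ht : Filter.Tendsto (fun n : ℕ => y + (1 / ((n : ℝ) + 1)) • x) Filter.atTop
        (nhds (y + (0 : ℝ) • x)) :=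
      tendsto_const_nhds.add (tendsto_one_div_add_atTop_nhds_zero_nat.smul_const x)
    rw [zero_smul, add_zero] at ht
    refine mem_closure_of_tendsto ht (Filter.Eventually.of_forall fun n i => ?_)
    have h1 : 0 < 1 / ((n : ℝ) + 1) := by positivity
    simp only [map_add, map_smul, Finsupp.add_apply, Finsupp.smul_apply, smul_eq_mul]
    have h3 : b.repr x i * (b.repr y i + 1 / ((n : ℝ) + 1) * b.repr x i) =
        b.repr x i * b.repr y i + 1 / ((n : ℝ) + 1) * (b.repr x i * b.repr x i) := by ring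
    rw [h3]
    have h4 := mul_pos h1 (mul_self_pos.2 (hx i))
    have h5 := hy i
    linarith

/-- The cones are the eight orthants in the coordinates with respect to the eigenvectors. -/
theorem isCone_iff (b : Module.Basis (Fin 3) ℝ (Fin 3 → ℝ)) (hμ : Function.Injective μ)
    (heig : ∀ i, (A.map (fun a : ℤ => (a : ℝ))).mulVec (b i) = μ i • b i)
    (C : Set (Fin 3 → ℝ)) :
    IsCone A C ↔ ∃ x : Fin 3 → ℝ, (∀ i, b.repr x i ≠ 0) ∧
      C = {y | ∀ i, 0 ≤ b.repr x i * b.repr y i} := by
  unfold IsCone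
  rw [offPlanes_eq b hμ heig]
  constructor
  · rintro ⟨x, hx, rfl⟩
    exact ⟨x, hx, by rw [component_eq b hx, closure_eq b hx]⟩
  · rintro ⟨x, hx, rfl⟩
    exact ⟨x, hx, by rw [component_eq b hx, closure_eq b hx]⟩

/-- There are eight cones. -/
theorem ncard_cones (b : Module.Basis (Fin 3) ℝ (Fin 3 → ℝ)) (hμ : Function.Injective μ)
    (heig : ∀ i, (A.map (fun a : ℤ => (a : ℝ))).mulVec (b i) = μ i • b i) :
    {C | IsCone A C}.ncard = 8 := by
  classical
  let s : Bool → ℝ := fun t => if t then 1 else -1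
  have hs : ∀ t, s t ≠ 0 := by intro t; cases t <;> simp [s]
  have hss : ∀ t t', 0 ≤ s t * s t' → t = t' := by
    intro t t'; cases t <;> cases t' <;> simp [s]
  let K : (Fin 3 → Bool) → Set (Fin 3 → ℝ) := fun ε => {y | ∀ i, 0 ≤ s (ε i) * b.repr y i}
  have hK : {C | IsCone A C} = Set.range K := by
    ext C
    rw [Set.mem_ofPred_eq, isCone_iff b hμ heig]
    constructor
    · rintro ⟨x, hx, rfl⟩
      refine ⟨fun i => decide (0 < b.repr x i), ?_⟩
      ext y
      simp only [K, s, Set.mem_ofPred_eq, decide_eq_true_eq]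
      refine forall_congr' fun i => ?_
      rcases lt_or_gt_of_ne (hx i) with h | h
      · rw [if_neg (not_lt.2 h.le)]
        constructor
        · intro h1
          exact mul_nonneg_of_nonpos_of_nonpos h.le (by linarith)
        · intro h1
          have := nonpos_of_mul_nonneg_right h1 h
          linarith
      · rw [if_pos h, one_mul]
        exact (mul_nonneg_iff_of_pos_left h).symm
    · rintro ⟨ε, rfl⟩
      refine ⟨∑ i, s (ε i) • b i, fun i => ?_, ?_⟩
      · rw [b.repr_sum_self]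
        exact hs _
      · ext y
        simp only [K, Set.mem_ofPred_eq, b.repr_sum_self]
  rw [hK, ← Set.image_univ, Set.ncard_image_of_injective, Set.ncard_univ]
  · simp
  · intro ε ε' h
    funext i
    have h1 : (∑ j, s (ε j) • b j) ∈ K ε := by
      intro j
      rw [b.repr_sum_self]
      exact mul_self_nonneg _
    rw [h] at h1
    have h2 := h1 i
    rw [b.repr_sum_self] at h2
    exact (hss _ _ h2).symm

end Cones

section Faces

variable {η : Fin 3 → Fin 3 → ℝ}

theorem isExposed_face {K : Set (Fin 3 → ℝ)} {w : Fin 3 → ℝ} (h : ∀ X ∈ K, 1 ≤ lr w X) :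
    IsExposed ℝ K {X ∈ K | lr w X = 1} := by
  rintro ⟨X0, hX0, hX1⟩
  let l : (Fin 3 → ℝ) →ₗ[ℝ] ℝ := (lr_isLinear w).mk' (lr w)
  refine ⟨-(LinearMap.toContinuousLinearMap l), ?_⟩
  ext X
  have hl : ∀ Y, (-(LinearMap.toContinuousLinearMap l)) Y = - lr w Y := fun Y => rfl
  simp only [Set.mem_ofPred_eq, hl, neg_le_neg_iff]
  constructor
  · rintro ⟨hX, h1⟩
    exact ⟨hX, fun Y hY => by rw [h1]; exact h Y hY⟩
  · rintro ⟨hX, h1⟩
    refine ⟨hX, le_antisymm ?_ (h X hX)⟩
    rw [← hX1]
    exact h1 X0 hX0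

theorem face_subset_frontier {K : Set (Fin 3 → ℝ)} {w : Fin 3 → ℝ} (hw : w ≠ 0)
    (h : ∀ X ∈ K, 1 ≤ lr w X) : {X ∈ K | lr w X = 1} ⊆ frontier K := by
  rintro X ⟨hX, hX1⟩
  refine ⟨subset_closure hX, fun hint => ?_⟩
  have hpos : 0 < lr w w := by
    have h1 : lr w w = w 0 ^ 2 + w 1 ^ 2 + w 2 ^ 2 := by simp only [lr]; ring
    rw [h1]
    by_contra hcon
    push Not at hcon
    apply hw
    have h0 := sq_nonneg (w 0)
    have h1 := sq_nonneg (w 1)
    have h2 := sq_nonneg (w 2)
    ext i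
    fin_cases i
    · exact pow_eq_zero_iff (two_ne_zero) |>.1 (by linarith : w 0 ^ 2 = 0)
    · exact pow_eq_zero_iff (two_ne_zero) |>.1 (by linarith : w 1 ^ 2 = 0)
    · exact pow_eq_zero_iff (two_ne_zero) |>.1 (by linarith : w 2 ^ 2 = 0)
  have ht : Filter.Tendsto (fun n : ℕ => X + (-(1 / ((n : ℝ) + 1))) • w) Filter.atTop
      (nhds (X + (-(0 : ℝ)) • w)) :=
    tendsto_const_nhds.add ((tendsto_one_div_add_atTop_nhds_zero_nat.neg).smul_const w)
  rw [neg_zero, zero_smul, add_zero] at ht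
  have hev := ht.eventually (isOpen_interior.mem_nhds hint)
  obtain ⟨n, hn⟩ := hev.exists
  have h1 := h _ (interior_subset hn)
  have h2 : lr w (X + (-(1 / ((n : ℝ) + 1))) • w) = lr w X - 1 / ((n : ℝ) + 1) * lr w w := by
    simp only [lr, Pi.add_apply, Pi.smul_apply, smul_eq_mul]
    ring
  rw [h2, hX1] at h1
  have h3 : 0 < 1 / ((n : ℝ) + 1) * lr w w := mul_pos (by positivity) hpos
  linarith

/-- The face is the convex hull of its finitely many vertices, and there are at least three. -/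
theorem vertices (hC : Cone η) {w : Fin 3 → ℝ} (hmin : ∀ x, Pos η x → 1 ≤ lf w x)
    (h2 : Module.finrank ℝ (vectorSpan ℝ
      {X ∈ convexHull ℝ (rc '' {z | Pos η z}) | lr w X = 1}) = 2) :
    (Set.extremePoints ℝ {X ∈ convexHull ℝ (rc '' {z | Pos η z}) | lr w X = 1}).Finite ∧
    3 ≤ (Set.extremePoints ℝ {X ∈ convexHull ℝ (rc '' {z | Pos η z}) | lr w X = 1}).ncard := by
  rw [face_eq hmin] at h2 ⊢
  set S : Set (Fin 3 → ℝ) := rc '' {z | Pos η z ∧ lf w z = 1} with hS
  have hfin : S.Finite := by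
    obtain ⟨lam, hlam⟩ := hC.exists_comb w
    have hpos : ∀ i, 0 < lam i := hC.coord_pos (by rw [← hlam]; exact hmin)
    refine Set.Finite.image _ ((hC.finite_sub hpos 1).subset ?_)
    rintro z ⟨hz, hz1⟩
    refine ⟨hz, ?_⟩
    rw [← hlam]
    exact hz1.le
  have hext : (Set.extremePoints ℝ (convexHull ℝ S)).Finite :=
    hfin.subset extremePoints_convexHull_subset
  refine ⟨hext, ?_⟩
  have hKM : convexHull ℝ (Set.extremePoints ℝ (convexHull ℝ S)) = convexHull ℝ S := by
    have hc : IsCompact (convexHull ℝ S) := Set.Finite.isCompact_convexHull (𝕜 := ℝ) hfin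
    have hc' : IsCompact (convexHull ℝ (Set.extremePoints ℝ (convexHull ℝ S))) :=
      Set.Finite.isCompact_convexHull (𝕜 := ℝ) hext
    have h := closure_convexHull_extremePoints hc (convex_convexHull ℝ S)
    rwa [hc'.isClosed.closure_eq] at h
  set E := Set.extremePoints ℝ (convexHull ℝ S) with hE
  have hspan : vectorSpan ℝ (convexHull ℝ S) = vectorSpan ℝ E := by
    rw [← hKM, ← direction_affineSpan, affineSpan_convexHull, direction_affineSpan]
  rw [hspan] at h2
  by_contra hcon
  push Not at hcon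
  have hfE : Fintype E := hext.fintype
  have hcard : Fintype.card E = E.ncard := by
    rw [← Nat.card_eq_fintype_card, Nat.card_coe_set_eq]
  rcases Nat.eq_zero_or_pos E.ncard with h0 | h0
  · rw [Set.ncard_eq_zero hext] at h0
    rw [h0, vectorSpan_empty, finrank_bot] at h2
    omega
  · have h3 := finrank_vectorSpan_range_le ℝ (fun x : E => (x : Fin 3 → ℝ))
      (n := E.ncard - 1) (by rw [hcard]; omega)
    rw [Subtype.range_coe] at h3
    omega

end Faces

section Orbit

variable {η : Fin 3 → Fin 3 → ℝ} {v : Fin 3 → Fin 3 → ℝ}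

/-- The hull of the integer points with positive coordinates. -/
def KK (η : Fin 3 → Fin 3 → ℝ) : Set (Fin 3 → ℝ) := convexHull ℝ (rc '' {z | Pos η z})

/-- The face defined by the functional `w`. -/
def FF (η : Fin 3 → Fin 3 → ℝ) (w : Fin 3 → ℝ) : Set (Fin 3 → ℝ) := {X ∈ KK η | lr w X = 1}

/-- The functional `w` defines a face which is not a quadrangle. -/
structure Good (η : Fin 3 → Fin 3 → ℝ) (w : Fin 3 → ℝ) : Prop where
  ne : w ≠ 0
  le : ∀ X ∈ KK η, 1 ≤ lr w X
  dim : Module.finrank ℝ (vectorSpan ℝ (FF η w)) = 2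
  card : (Set.extremePoints ℝ (FF η w)).ncard ≠ 4

theorem Good.min {w : Fin 3 → ℝ} (h : Good η w) : ∀ x, Pos η x → 1 ≤ lf w x := fun z hz => by
  rw [← lr_rc]
  exact h.le _ (subset_convexHull ℝ _ ⟨z, hz, rfl⟩)

theorem exists_ext (hcoord : ∀ t : Fin 3 → ℝ, ∀ i, lr (η i) (∑ j, t j • v j) = t i)
    (hexp : ∀ X : Fin 3 → ℝ, X = ∑ j, lr (η j) X • v j) {f : Z3 ≃+ Z3} {c : Fin 3 → ℝ}
    (h : InGam η f c) :
    ∃ L : (Fin 3 → ℝ) ≃ₗ[ℝ] (Fin 3 → ℝ), (∀ z, L (rc z) = rc (f z)) ∧
      ∀ X i, lr (η i) (L X) = c i * lr (η i) X := by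
  let M : (Fin 3 → ℝ) → (Fin 3 → ℝ) →ₗ[ℝ] (Fin 3 → ℝ) := fun d =>
    ∑ j, ((lr_isLinear (η j)).mk' (lr (η j))).smulRight (d j • v j)
  have hM : ∀ d X, M d X = ∑ j, (d j * lr (η j) X) • v j := by
    intro d X
    simp only [M, LinearMap.sum_apply, LinearMap.smulRight_apply, IsLinearMap.mk'_apply,
      smul_smul, mul_comm]
  have hMc : ∀ d X i, lr (η i) (M d X) = d i * lr (η i) X := fun d X i => by
    rw [hM, hcoord (fun j => d j * lr (η j) X)]
  have hinj : ∀ X Y : Fin 3 → ℝ, (∀ i, lr (η i) X = lr (η i) Y) → X = Y := fun X Y h => by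
    rw [hexp X, hexp Y]
    simp only [h]
  refine ⟨LinearEquiv.ofLinearMap (M c) (M (fun i => (c i)⁻¹)) ?_ ?_, ?_, ?_⟩
  · refine LinearMap.ext fun X => hinj _ _ fun i => ?_
    rw [LinearMap.comp_apply, hMc, hMc, LinearMap.id_apply, ← mul_assoc,
      mul_inv_cancel₀ (h.pos i).ne', one_mul]
  · refine LinearMap.ext fun X => hinj _ _ fun i => ?_
    rw [LinearMap.comp_apply, hMc, hMc, LinearMap.id_apply, ← mul_assoc,
      inv_mul_cancel₀ (h.pos i).ne', one_mul]
  · intro z
    refine hinj _ _ fun i => ?_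
    rw [LinearEquiv.coe_ofLinearMap, hMc, lr_rc, lr_rc]
    exact (h.scale i z).symm
  · intro X i
    rw [LinearEquiv.coe_ofLinearMap, hMc]

theorem InGam.posIff {f : Z3 ≃+ Z3} {c : Fin 3 → ℝ} (h : InGam η f c) (z : Z3) :
    Pos η (f z) ↔ Pos η z := by
  refine forall_congr' fun i => ?_
  rw [h.scale i z]
  exact mul_pos_iff_of_pos_left (h.pos i)

theorem Good.image {w : Fin 3 → ℝ} (hw : Good η w) {f : Z3 ≃+ Z3} {c : Fin 3 → ℝ}
    (h : InGam η f c) {L : (Fin 3 → ℝ) ≃ₗ[ℝ] (Fin 3 → ℝ)} (hL : ∀ z, L (rc z) = rc (f z)) :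
    ∃ w', Good η w' ∧ FF η w' = L '' FF η w := by
  have hK : L '' KK η = KK η := by
    have h1 : L '' (rc '' {z | Pos η z}) = rc '' {z | Pos η z} := by
      ext X
      constructor
      · rintro ⟨_, ⟨z, hz, rfl⟩, rfl⟩
        exact ⟨f z, (InGam.posIff h z).2 hz, (hL z).symm⟩
      · rintro ⟨z, hz, rfl⟩
        refine ⟨rc (f.symm z), ⟨f.symm z, ?_, rfl⟩, ?_⟩
        · have := InGam.posIff h (f.symm z)
          rw [AddEquiv.apply_symm_apply] at this
          exact this.1 hz
        · rw [hL, AddEquiv.apply_symm_apply]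
    have h2 := LinearMap.image_convexHull (L : (Fin 3 → ℝ) →ₗ[ℝ] (Fin 3 → ℝ))
      (rc '' {z | Pos η z})
    rw [KK]
    have h3 : (fun x => (L : (Fin 3 → ℝ) →ₗ[ℝ] (Fin 3 → ℝ)) x) '' (rc '' {z | Pos η z}) =
        rc '' {z | Pos η z} := h1
    rw [h3] at h2
    exact h2
  let l : (Fin 3 → ℝ) →ₗ[ℝ] ℝ := (lr_isLinear w).mk' (lr w)
  obtain ⟨w', hw'⟩ : ∃ w' : Fin 3 → ℝ, ∀ X, lr w' X = lr w (L.symm X) := by
    refine ⟨fun k => (l ∘ₗ (L.symm : (Fin 3 → ℝ) →ₗ[ℝ] (Fin 3 → ℝ))) (Pi.single k 1),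
      fun X => ?_⟩
    have h1 : lr w (L.symm X) = (l ∘ₗ (L.symm : (Fin 3 → ℝ) →ₗ[ℝ] (Fin 3 → ℝ))) X := rfl
    have h2 : X = ∑ k, X k • (Pi.single k (1 : ℝ) : Fin 3 → ℝ) := by
      ext i
      simp [Finset.sum_apply, Pi.single_apply]
    rw [h1]
    conv_rhs => rw [h2]
    rw [map_sum, Fin.sum_univ_three]
    simp only [map_smul, smul_eq_mul, lr]
    ring
  have hF : FF η w' = L '' FF η w := by
    ext X
    simp only [FF, Set.mem_ofPred_eq, Set.mem_image, hw']
    constructor
    · rintro ⟨hX, h1⟩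
      refine ⟨L.symm X, ⟨?_, h1⟩, L.apply_symm_apply X⟩
      rw [← hK] at hX
      obtain ⟨Y, hY, rfl⟩ := hX
      rwa [L.symm_apply_apply]
    · rintro ⟨Y, ⟨hY, h1⟩, rfl⟩
      rw [L.symm_apply_apply]
      exact ⟨by rw [← hK]; exact ⟨Y, hY, rfl⟩, h1⟩
  refine ⟨w', ⟨?_, ?_, ?_, ?_⟩, hF⟩
  · rintro rfl
    have h1 : FF η w ≠ ∅ := by
      intro h0
      have := hw.dim
      rw [h0, vectorSpan_empty, finrank_bot] at this
      omega
    obtain ⟨X, hX⟩ := Set.nonempty_iff_ne_empty.2 h1
    have h2 := hw' (L X)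
    rw [L.symm_apply_apply, hX.2] at h2
    simp [lr] at h2
  · intro X hX
    rw [← hK] at hX
    obtain ⟨Y, hY, rfl⟩ := hX
    rw [hw', L.symm_apply_apply]
    exact hw.le Y hY
  · rw [hF]
    have h1 : vectorSpan ℝ (L '' FF η w) =
        (vectorSpan ℝ (FF η w)).map (L : (Fin 3 → ℝ) →ₗ[ℝ] (Fin 3 → ℝ)) := by
      have := AffineMap.map_vectorSpan
        (L.toLinearMap.toAffineMap) (s := FF η w)
      rw [LinearMap.toAffineMap_linear] at this
      rw [this]
      rfl
    rw [h1, LinearEquiv.finrank_map_eq]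
    exact hw.dim
  · rw [hF, ← image_extremePoints, Set.ncard_image_of_injective _ L.injective]
    exact hw.card

theorem infinite_faces (hC : Cone η)
    (hcoord : ∀ t : Fin 3 → ℝ, ∀ i, lr (η i) (∑ j, t j • v j) = t i)
    (hexp : ∀ X : Fin 3 → ℝ, X = ∑ j, lr (η j) X • v j) {w : Fin 3 → ℝ} (hw : Good η w) :
    {F | ∃ w, Good η w ∧ F = FF η w}.Infinite := by
  intro hfin
  have hvert : ∀ w, Good η w → (Set.extremePoints ℝ (FF η w)).Finite ∧
      3 ≤ (Set.extremePoints ℝ (FF η w)).ncard := fun w hw => vertices hC hw.min hw.dim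
  have hU : (⋃ F ∈ {F | ∃ w, Good η w ∧ F = FF η w}, Set.extremePoints ℝ F).Finite := by
    refine hfin.biUnion ?_
    rintro F ⟨w, hw, rfl⟩
    exact (hvert w hw).1
  obtain ⟨B, hB⟩ := (hU.image (lr (η 0))).bddAbove
  -- a vertex of the face of `w`
  have hne : (Set.extremePoints ℝ (FF η w)).Nonempty := by
    rw [← Set.ncard_pos (hvert w hw).1]
    have := (hvert w hw).2
    omega
  obtain ⟨X, hX⟩ := hne
  have hX' : X ∈ rc '' {z | Pos η z ∧ lf w z = 1} := by
    have h1 : FF η w = convexHull ℝ (rc '' {z | Pos η z ∧ lf w z = 1}) := face_eq hw.min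
    rw [h1] at hX
    exact extremePoints_convexHull_subset hX
  obtain ⟨z, ⟨hz, -⟩, rfl⟩ := hX'
  have hy : 0 < yy η 0 z := hz 0
  obtain ⟨R, hR1, hR⟩ := hC.coco
  set T : ℝ := R * (|B| + 1) / yy η 0 z with hT
  have hTpos : 0 < T := by positivity
  obtain ⟨f, c, hf, hc⟩ := hR ![T⁻¹, T, 1] (by
    intro i
    fin_cases i
    · exact inv_pos.2 hTpos
    · exact hTpos
    · exact one_pos) (by simp [hTpos.ne'])
  obtain ⟨L, hL, hLc⟩ := exists_ext hcoord hexp hf
  obtain ⟨w', hw', hF⟩ := hw.image hf hL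
  have h1 : L (rc z) ∈ Set.extremePoints ℝ (FF η w') := by
    rw [hF, ← image_extremePoints]
    exact ⟨_, hX, rfl⟩
  have h2 : lr (η 0) (L (rc z)) ≤ B := by
    apply hB
    refine ⟨_, ?_, rfl⟩
    simp only [Set.mem_iUnion]
    exact ⟨_, ⟨w', hw', rfl⟩, h1⟩
  rw [hLc, lr_rc] at h2
  have h3 := (hc 0).1
  have h4 : (![T⁻¹, T, 1] : Fin 3 → ℝ) 0 = T⁻¹ := rfl
  rw [h4] at h3
  have hRpos : 0 < R := by linarith
  have h5 : T ≤ R * c 0 := by
    have := mul_le_mul_of_nonneg_right h3 hTpos.le
    rw [one_mul] at this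
    have h6 : R * (c 0 * T⁻¹) * T = R * c 0 := by
      field_simp
    rwa [h6] at this
  have h7 : R * (|B| + 1) ≤ R * (c 0 * yy η 0 z) := by
    have h8 : T * yy η 0 z = R * (|B| + 1) := by
      rw [hT]
      field_simp
    rw [← h8]
    have := mul_le_mul_of_nonneg_right h5 hy.le
    linarith
  have h9 : |B| + 1 ≤ c 0 * yy η 0 z := le_of_mul_le_mul_left h7 hRpos
  have h10 : c 0 * yy η 0 z ≤ B := h2
  have h11 := le_abs_self B
  linarith

end Orbit

/-- Let `A` be an integer `3 × 3` matrix whose characteristic polynomial is irreducible over `ℚ`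
and has three real roots. Then the invariant planes of `A` divide `ℝ³` into eight cones, and the
Klein sail of each of them has infinitely many faces which are not quadrangles: polygons with `k`
vertices, `k ≥ 3` finite, `k ≠ 4`. -/
theorem result (A : Matrix (Fin 3) (Fin 3) ℤ)
    (hirr : Irreducible (A.charpoly.map (Int.castRingHom ℚ)))
    (hreal : (A.charpoly.map (Int.castRingHom ℝ)).roots.card = 3) :
    {C | IsCone A C}.ncard = 8 ∧
      ∀ C, IsCone A C → {F | IsFace C F ∧ (F.extremePoints ℝ).Finite ∧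
        3 ≤ (F.extremePoints ℝ).ncard ∧ (F.extremePoints ℝ).ncard ≠ 4}.Infinite := by
  obtain ⟨v, μ, hμ, hli, heig⟩ := exists_eigen hirr hreal
  have hcard : Fintype.card (Fin 3) = Module.finrank ℝ (Fin 3 → ℝ) := by simp
  set b := basisOfLinearIndependentOfCardEqFinrank hli hcard with hb
  have hbv : ∀ i, b i = v i := fun i => by
    rw [hb, coe_basisOfLinearIndependentOfCardEqFinrank]
  have heigb : ∀ i, (A.map (fun a : ℤ => (a : ℝ))).mulVec (b i) = μ i • b i := fun i => by
    rw [hbv]; exact heig i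
  refine ⟨ncard_cones b hμ heigb, fun C hCone => ?_⟩
  obtain ⟨x, hx, rfl⟩ := (isCone_iff b hμ heigb C).1 hCone
  -- the eigenvectors with the right signs
  set v' : Fin 3 → (Fin 3 → ℝ) := fun i => b.repr x i • b i with hv'
  have hli' : LinearIndependent ℝ v' := by
    have h := b.linearIndependent.units_smul (fun i => Units.mk0 (b.repr x i) (hx i))
    exact h
  have heig' : ∀ i, (A.map (fun a : ℤ => (a : ℝ))).mulVec (v' i) = μ i • v' i := by
    intro i
    simp only [hv', Matrix.mulVec_smul, heigb i]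
    rw [smul_comm]
  obtain ⟨η, hC, hcoord, hexp⟩ := exists_dual hirr hli' heig'
  have hrep : ∀ X i, b.repr X i = lr (η i) X * b.repr x i := by
    intro X i
    conv_lhs => rw [hexp X]
    simp only [hv', smul_smul]
    rw [b.repr_sum_self]
  have hCeq : {y | ∀ i, 0 ≤ b.repr x i * b.repr y i} = {X | ∀ i, 0 ≤ lr (η i) X} := by
    ext X
    refine forall_congr' fun i => ?_
    rw [hrep X i]
    have h1 : b.repr x i * (lr (η i) X * b.repr x i) =
        (b.repr x i * b.repr x i) * lr (η i) X := by ring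
    rw [h1]
    exact mul_nonneg_iff_of_pos_left (mul_self_pos.2 (hx i))
  rw [hCeq]
  have hS : lattice ∩ ({X | ∀ i, 0 ≤ lr (η i) X} \ {0}) = rc '' {z | Pos η z} := by
    ext X
    constructor
    · rintro ⟨hX, hXC, hX0⟩
      choose z hz using hX
      have hXz : rc z = X := by
        ext i
        rw [rc_apply, hz]
      refine ⟨z, fun i => ?_, hXz⟩
      have hz0 : z ≠ 0 := by
        rintro rfl
        apply hX0
        rw [Set.mem_singleton_iff, ← hXz]
        ext i
        simp
      have h3 : yy η i z ≠ 0 := hC.y_ne i z hz0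
      have h1 : yy η i z = lr (η i) X := by
        show lf (η i) z = _
        rw [← lr_rc, hXz]
      rw [h1] at h3 ⊢
      exact lt_of_le_of_ne (hXC i) (Ne.symm h3)
    · rintro ⟨z, hz, rfl⟩
      refine ⟨fun i => ⟨z i, rfl⟩, fun i => ?_, ?_⟩
      · rw [lr_rc]
        exact (hz i).le
      · intro h0
        rw [Set.mem_singleton_iff] at h0
        have h1 := hz 0
        have h2 : yy η 0 z = lr (η 0) (rc z) := by
          show lf (η 0) z = _
          rw [lr_rc]
        rw [h2, h0] at h1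
        simp [lr] at h1
  have hhull : hull {X | ∀ i, 0 ≤ lr (η i) X} = convexHull ℝ (rc '' {z | Pos η z}) := by
    rw [hull, hS]
  have hgood : ∃ w, Good η w := by
    by_contra hcon
    refine no_all_quad hC (allQuad_of hC (fun w hw h1 h2 => ?_))
    by_contra h4
    exact hcon ⟨w, hw, h1, h2, h4⟩
  obtain ⟨w, hw⟩ := hgood
  refine (infinite_faces hC hcoord hexp hw).mono ?_
  rintro F ⟨w, hw, rfl⟩
  obtain ⟨hf, h3⟩ := vertices hC hw.min hw.dim
  refine ⟨⟨?_, ?_, hw.dim⟩, hf, h3, hw.card⟩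
  · rw [hhull]
    exact isExposed_face hw.le
  · rw [sail, hhull]
    exact face_subset_frontier hw.ne hw.le

end Pool.Agent.Results.MP_a785c8_co.NoQuadrangularSail
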